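import Pool.Agent.H63.TC.Stmts

/-!
# Project TC, module ZPR: the transversal component tends to zero at every puncture
-/

open Complex Metric Set Filter Topology

namespace Pool.Agent.H63.TC

lemma zpr_fst {V : Type} [TopologicalSpace V] (hW : WhlStmt) (A : Atlas V) (W : Ell A) (p : V)
    (v : ℂ × ℂ) :
    A.Hol (fun x => (W.W x).1) ∧
    HasFDerivAt (fun m => (W.W (A.sec p m)).1)
      ((ContinuousLinearMap.fst ℂ ℂ ℂ).comp (fderiv ℂ (fun m => W.W (A.sec p m)) (A.E p)))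
      (A.E p) ∧
    ((ContinuousLinearMap.fst ℂ ℂ ℂ).comp (fderiv ℂ (fun m => W.W (A.sec p m)) (A.E p))) v =
      v.1 / deriv lam (W.W p).1 := by
  obtain ⟨h1, h2⟩ := hW V A W
  refine ⟨fun x => (h1 x).fst, (h1 p).hasFDerivAt.fst, ?_⟩
  rw [ContinuousLinearMap.comp_apply, h2 p v]
  rfl

lemma zpr_snd {V : Type} [TopologicalSpace V] (hW : WhlStmt) (A : Atlas V) (W : Ell A) (p : V)
    (v : ℂ × ℂ) :
    A.Hol (fun x => (W.W x).2) ∧
    HasFDerivAt (fun m => (W.W (A.sec p m)).2)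
      ((ContinuousLinearMap.snd ℂ ℂ ℂ).comp (fderiv ℂ (fun m => W.W (A.sec p m)) (A.E p)))
      (A.E p) ∧
    ((ContinuousLinearMap.snd ℂ ℂ ℂ).comp (fderiv ℂ (fun m => W.W (A.sec p m)) (A.E p))) v =
      (v.2 - yt (W.W p) * (v.1 / deriv lam (W.W p).1)) / yu (W.W p) := by
  obtain ⟨h1, h2⟩ := hW V A W
  refine ⟨fun x => (h1 x).snd, (h1 p).hasFDerivAt.snd, ?_⟩
  rw [ContinuousLinearMap.comp_apply, h2 p v]
  rfl

/-- the components of the push forward under a lift of a translation -/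
lemma zpr_push {V : Type} [TopologicalSpace V] (hW : WhlStmt) (hP : PshStmt) (A : Atlas V)
    (W : Ell A) (T : V ≃ₜ V) (hT : A.HolSelf T) (hT' : A.HolSelf T.symm) (m n : ℤ)
    (hWT : ∀ p, W.W (T p) = ((W.W p).1, (W.W p).2 + m * (W.W p).1 + n)) (ξ : V → ℂ × ℂ) (p : V) :
    W.hh (A.push T ξ) (T p) = W.hh ξ p ∧
      W.kk (A.push T ξ) (T p) = W.kk ξ p + m * W.hh ξ p := by
  obtain ⟨-, -, h3⟩ := hP V A T hT hT'
  have e1 : W.hh (A.push T ξ) (T p) = W.hh ξ p := by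
    have a := h3 (fun x => (W.W x).1) ξ p (zpr_fst hW A W p 0).1
    obtain ⟨-, b2, b3⟩ := zpr_fst hW A W (T p) (A.push T ξ (T p))
    obtain ⟨-, c2, c3⟩ := zpr_fst hW A W p (ξ p)
    have e : (fun m => (W.W (T (A.sec p m))).1) = fun m => (W.W (A.sec p m)).1 := by
      funext m; rw [hWT]
    rw [e] at a
    rw [b2.fderiv, b3, c2.fderiv, c3] at a
    exact a
  refine ⟨e1, ?_⟩
  have a := h3 (fun x => (W.W x).2) ξ p (zpr_snd hW A W p 0).1
  obtain ⟨-, b2, b3⟩ := zpr_snd hW A W (T p) (A.push T ξ (T p))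
  obtain ⟨-, c2, c3⟩ := zpr_snd hW A W p (ξ p)
  obtain ⟨-, d2, d3⟩ := zpr_fst hW A W p (ξ p)
  have e : (fun m' => (W.W (T (A.sec p m'))).2) =
      fun m' => (W.W (A.sec p m')).2 + m * (W.W (A.sec p m')).1 + n := by
    funext m'; rw [hWT]
  rw [e] at a
  rw [b2.fderiv, b3] at a
  have f1 : HasFDerivAt (fun m' => (W.W (A.sec p m')).2 + m * (W.W (A.sec p m')).1 + n) _ (A.E p) :=
    (c2.add (d2.const_mul (m : ℂ))).add_const (n : ℂ)
  rw [f1.fderiv] at a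
  rw [_root_.add_apply, _root_.smul_apply, c3, d3, smul_eq_mul] at a
  exact a

/-- ZPR -/
theorem zpr (hZ : ZzzStmt) (hTht : ThtStmt) (hW : WhlStmt) (hP : PshStmt) : ZprStmt := by
  intro V _ _ A W τ₀ m n J ρ M S hτ hlam hJ hWJ hS hbd hM ε hε
  obtain ⟨T, hT, hT', hWT⟩ := hTht V A W (-m) (-n)
  obtain ⟨p1, p2, -⟩ := hP V A T hT hT'
  have hpush := fun ξ p => zpr_push hW hP A W T hT hT' (-m) (-n) hWT ξ p
  have hz := hZ V A W τ₀ (fun z => T (J z)) ρ M ((A.push T) '' S) hτ hlam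
    (T.continuous.comp_continuousOn hJ)
    (by
      intro z hz
      rw [hWT, hWJ z hz]
      ext
      · rfl
      · push_cast; ring)
    (by
      rintro _ ⟨ξ, hξ, rfl⟩
      exact p1 ξ (hS ξ hξ))
    (by
      intro K hK
      obtain ⟨C, hC⟩ := p2 K hK
      obtain ⟨M', hM'⟩ := hbd (T.symm '' K) (hK.image T.symm.continuous)
      refine ⟨|C| * M', ?_⟩
      rintro _ ⟨ξ, hξ, rfl⟩ q hq
      have h1 := hC ξ q hq
      have h2 := hM' ξ hξ (T.symm q) ⟨q, hq, rfl⟩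
      calc ‖A.push T ξ q‖ ≤ C * ‖ξ (T.symm q)‖ := h1
        _ ≤ |C| * ‖ξ (T.symm q)‖ := mul_le_mul_of_nonneg_right (le_abs_self C) (norm_nonneg _)
        _ ≤ |C| * M' := mul_le_mul_of_nonneg_left h2 (abs_nonneg C))
    (by
      rintro _ ⟨ξ, hξ, rfl⟩ z hz
      rw [(hpush ξ (J z)).1]
      exact hM ξ hξ z hz)
    (ε / 2) (by linarith)
  obtain ⟨ρ', hρ'⟩ := hz
  have hpos : 0 < ε * τ₀.im / (2 * (|M| + 1)) := by positivity
  refine ⟨min ρ' (Real.log (ε * τ₀.im / (2 * (|M| + 1)))), ?_⟩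
  intro ξ hξ z h1 h2 h3 h4
  have h5 := hρ' (A.push T ξ) ⟨ξ, hξ, rfl⟩ z (h1.trans_le (min_le_left _ _)) h2 h3 h4
  rw [(hpush ξ (J z)).2] at h5
  have h6 : ‖exp z‖ ≤ ε * τ₀.im / (2 * (|M| + 1)) := by
    rw [Complex.norm_exp]
    have := h1.trans_le (min_le_right _ _)
    have := Real.exp_lt_exp.2 this
    rw [Real.exp_log hpos] at this
    exact this.le
  have h7 : |(exp z).im| ≤ ε * τ₀.im / (2 * (|M| + 1)) := (Complex.abs_im_le_norm _).trans h6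
  have h8 : ‖W.hh ξ (J z)‖ ≤ |M| := (hM ξ hξ z h2).trans (le_abs_self M)
  have e0 : (W.W (J z)).2.im / τ₀.im = m + (exp z).im / τ₀.im := by
    rw [hWJ z h2]
    have := hτ.ne'
    simp only [add_im, mul_im, intCast_re, intCast_im, zero_mul, add_zero]
    field_simp
  have e1 : W.kk ξ (J z) - ((W.W (J z)).2.im / τ₀.im : ℝ) * W.hh ξ (J z) =
      (W.kk ξ (J z) + ((-m : ℤ) : ℂ) * W.hh ξ (J z)) -
        (((exp z).im / τ₀.im : ℝ) : ℂ) * W.hh ξ (J z) := by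
    rw [e0]; push_cast; ring
  rw [e1]
  have h9 : ‖(((exp z).im / τ₀.im : ℝ) : ℂ) * W.hh ξ (J z)‖ ≤ ε / 2 := by
    rw [norm_mul, Complex.norm_real, Real.norm_eq_abs, abs_div, abs_of_pos hτ]
    have hM1 : 0 < |M| + 1 := by positivity
    calc |(exp z).im| / τ₀.im * ‖W.hh ξ (J z)‖
        ≤ (ε * τ₀.im / (2 * (|M| + 1))) / τ₀.im * (|M| + 1) := by
          refine mul_le_mul ?_ (h8.trans (by linarith)) (norm_nonneg _) (by positivity)
          exact div_le_div_of_nonneg_right h7 hτ.le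
      _ = ε / 2 := by
          have := hτ.ne'
          field_simp
  calc _ ≤ ‖W.kk ξ (J z) + ((-m : ℤ) : ℂ) * W.hh ξ (J z)‖ +
        ‖(((exp z).im / τ₀.im : ℝ) : ℂ) * W.hh ξ (J z)‖ := norm_sub_le _ _
    _ ≤ ε / 2 + ε / 2 := add_le_add h5 h9
    _ = ε := by ring

end Pool.Agent.H63.TC
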